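import Pool.Agent.P.MP_08fd93_co.All

set_option autoImplicit false

namespace Pool.Agent.Results.MP_08fd93_co.Defect0112

/-- Every finite simple graph that embeds in the torus is (0,1,1,2)-colourable. -/
theorem result :
    ∀ (V : Type) [Fintype V] (G : SimpleGraph V),
      (∃ (p : V → AddCircle (1 : ℝ) × AddCircle (1 : ℝ))
          (γ : ∀ u v : V, G.Adj u v → Path (p u) (p v)),
        Function.Injective p ∧
        (∀ (u v : V) (h : G.Adj u v), Function.Injective ⇑(γ u v h)) ∧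
        (∀ (u v : V) (h : G.Adj u v) (w : V) (t : unitInterval),
          0 < (t : ℝ) → (t : ℝ) < 1 → γ u v h t ≠ p w) ∧
        (∀ (u v : V) (h : G.Adj u v) (u' v' : V) (h' : G.Adj u' v') (s t : unitInterval),
          s(u, v) ≠ s(u', v') → 0 < (s : ℝ) → (s : ℝ) < 1 → 0 < (t : ℝ) → (t : ℝ) < 1 →
          γ u v h s ≠ γ u' v' h' t)) →
      ∃ c : V → Fin 4, ∀ v : V,
        {u | G.Adj v u ∧ c u = c v}.ncard ≤ (![0, 1, 1, 2] : Fin 4 → ℕ) (c v) :=
  fun V _ G h => Pool.Agent.P.MP_08fd93_co.all_A V G h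

end Pool.Agent.Results.MP_08fd93_co.Defect0112
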