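import Pool.Agent.P.MP_08fd93_co.FA.Pit0

set_option autoImplicit false

namespace Pool.Agent.Results.MP_08fd93_co.Full

/-- Every finite simple graph that embeds in the torus is 4-colourable with defect 1. -/
theorem result :
    ∀ (V : Type) [Fintype V] (G : SimpleGraph V),
      (∃ (p : V → AddCircle (1 : ℝ) × AddCircle (1 : ℝ))
          (γ : ∀ u v : V, G.Adj u v → Path (p u) (p v)),
        Function.Injective p ∧
        (∀ (u v : V) (h : G.Adj u v), Function.Injective ⇑(γ u v h)) ∧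
        (∀ (u v : V) (h : G.Adj u v) (w : V) (t : unitInterval),
          0 < (t : ℝ) → (t : ℝ) < 1 → γ u v h t ≠ p w) ∧
        (∀ (u v : V) (h : G.Adj u v) (u' v' : V) (h' : G.Adj u' v') (s t : unitInterval),
          s(u, v) ≠ s(u', v') → 0 < (s : ℝ) → (s : ℝ) < 1 → 0 < (t : ℝ) → (t : ℝ) < 1 →
          γ u v h s ≠ γ u' v' h' t)) →
      ∃ c : V → Fin 4, ∀ v : V, {u | G.Adj v u ∧ c u = c v}.ncard ≤ 1 := by
  intro V _ G h
  obtain ⟨c, hc⟩ := Pool.Agent.P.MP_08fd93_co.FZ.full_of Pool.Agent.P.MP_08fd93_co.FA.core V G h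
  exact ⟨c, fun v => (Set.ncard_le_one (Set.toFinite _)).2 fun a ha b hb =>
    hc v a b ha.1 hb.1 ha.2 hb.2⟩

end Pool.Agent.Results.MP_08fd93_co.Full
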