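import Pool.Agent.P.MP_08fd93_co.AllC

set_option autoImplicit false

namespace Pool.Agent.Results.MP_08fd93_co.ShortPaths

/-- List colouring with monochromatic components that are paths on at most three vertices:
from lists of size four for toroidal graphs, and from lists of size `k` when every subgraph has
average degree at most `3k/2` (less than `3k/2` for odd `k`). -/
theorem result :
    ∀ (V : Type) [Fintype V] (G : SimpleGraph V) (k : ℕ),
      ((k = 4 ∧
        ∃ (p : V → AddCircle (1 : ℝ) × AddCircle (1 : ℝ))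
          (γ : ∀ u v : V, G.Adj u v → Path (p u) (p v)),
        Function.Injective p ∧
        (∀ (u v : V) (h : G.Adj u v), Function.Injective ⇑(γ u v h)) ∧
        (∀ (u v : V) (h : G.Adj u v) (w : V) (t : unitInterval),
          0 < (t : ℝ) → (t : ℝ) < 1 → γ u v h t ≠ p w) ∧
        (∀ (u v : V) (h : G.Adj u v) (u' v' : V) (h' : G.Adj u' v') (s t : unitInterval),
          s(u, v) ≠ s(u', v') → 0 < (s : ℝ) → (s : ℝ) < 1 → 0 < (t : ℝ) → (t : ℝ) < 1 →
          γ u v h s ≠ γ u' v' h' t)) ∨
      (0 < k ∧ ∀ Y : Finset V, Y.Nonempty →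
        2 * (∑ v ∈ Y, {u | u ∈ Y ∧ G.Adj v u}.ncard) + k % 2 ≤ 3 * k * Y.card)) →
      ∀ L : V → Finset ℕ, (∀ v, k ≤ (L v).card) →
      ∃ c : V → ℕ, (∀ v, c v ∈ L v) ∧
        (∀ v a b d, G.Adj v a → G.Adj v b → G.Adj v d → c a = c v → c b = c v → c d = c v →
          a = b ∨ a = d ∨ b = d) ∧
        (∀ u v a b, G.Adj u v → G.Adj u a → G.Adj v b → c v = c u → c a = c u → c b = c u →
          a = v ∨ b = u) :=
  fun V _ G k h L hL => Pool.Agent.P.MP_08fd93_co.all_C' V G k h L hL

end Pool.Agent.Results.MP_08fd93_co.ShortPaths
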